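import Pool.Agent.H3.BT.Defs

/-!
# The Bessel inequality for tuples: sliding windows, statements
-/

set_option autoImplicit false

open Finset Pool.Agent.H6.N4D Pool.Agent.H93.EB

namespace Pool.Agent.H3.BT

/-- BTS. The inequality of Bessel for tuples, sliding windows with logarithmic weights. The
constant `C` is absolute: it does not depend on the number `k` of the exponentials. -/
def T_BTS : Prop := ∃ (B : ℕ) (C : ℝ), 1 ≤ B ∧ 0 < C ∧ ∀ R k : ℕ, ∃ s₀ : ℕ,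
  ∀ (s X K k₁ : ℕ) (lam : ℕ → ℝ) (e : ℝ) (m : ℕ → ℕ) (b : ℕ → ℕ → ℕ → ℕ → ℂ)
    (α : ℕ → ℕ → ℕ → ℕ → ℝ),
    s₀ ≤ s → 3 ≤ X → (∀ n, |lam n| ≤ 1) → Base lam R (2 ^ s) e X → K ≤ 2 ^ (s / B) →
    B * s ≤ m 0 → (∀ i, i + 1 < K → B * m i ≤ m (i + 1)) → (∀ i < K, m i ≤ k₁) →
    (∀ i < K, ∀ n, TC (m i) n k (2 ^ (s / B)) (b i n) (α i n)) →
    ∑ i ∈ range K, lg X (fun n => Pt lam (m i) n k (b i n) (α i n)) ≤
      (C * e + (1 / 2) ^ (s / B)) * Real.log X + C * K * (k₁ + 1)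

/-- NCX. Good lifts: exact lifts of the frequencies of one representative, which stay good after
small shifts. -/
def T_NCX : Prop := ∃ m₀ : ℕ, ∀ m, m₀ ≤ m → ∀ β : ℕ → ℝ, ∃ z : ℕ → ℤ, ∀ δ : ℕ → ℝ,
  (∀ q ∈ QQ m, |δ q| ≤ 2 ^ (m / 4800) / 2 ^ m) → NCt m (fun q => β q + (z q : ℝ) / q + δ q)

/-- TTB. The trivial bound of the tests. -/
def T_TTB : Prop := ∀ (lam : ℕ → ℝ) (m n k q : ℕ) (A : ℝ) (b : ℕ → ℕ → ℂ) (α : ℕ → ℕ → ℝ),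
  (∀ n, |lam n| ≤ 1) → TC m n k A b α → q ∈ QQ m →
    tt lam q (2 ^ m) n (fs k (b q) (α q)) ^ 2 ≤ 9

end Pool.Agent.H3.BT
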