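import Pool.Agent.H3.BT.Targets
import Pool.Agent.H46.BES.GEN

/-!
# The Bessel inequality for tuples: the trivial bound
-/

set_option autoImplicit false

open Finset Pool.Agent.H6.N4D Pool.Agent.H93.EB

namespace Pool.Agent.H3.BT

/-- Cauchy - Schwarz with a majorant -/
lemma cs_maj (I : Finset ℕ) (z : ℕ → ℂ) (D F : ℕ → ℝ) (hD : ∀ x ∈ I, 0 ≤ D x)
    (hz : ∀ x ∈ I, ‖z x‖ ≤ D x * F x) :
    ‖∑ x ∈ I, z x‖ ^ 2 ≤ (∑ x ∈ I, D x) * ∑ x ∈ I, D x * F x ^ 2 := by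
  have h1 : ‖∑ x ∈ I, z x‖ ≤ ∑ x ∈ I, Real.sqrt (D x) * (Real.sqrt (D x) * F x) := by
    refine (norm_sum_le _ _).trans (sum_le_sum fun x hx => ?_)
    refine (hz x hx).trans (le_of_eq ?_)
    rw [← mul_assoc, Real.mul_self_sqrt (hD x hx)]
  have h2 := Finset.sum_mul_sq_le_sq_mul_sq I (fun x => Real.sqrt (D x))
    (fun x => Real.sqrt (D x) * F x)
  have h3 : ∑ x ∈ I, Real.sqrt (D x) ^ 2 = ∑ x ∈ I, D x :=
    sum_congr rfl fun x hx => Real.sq_sqrt (hD x hx)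
  have h4 : ∑ x ∈ I, (Real.sqrt (D x) * F x) ^ 2 = ∑ x ∈ I, D x * F x ^ 2 :=
    sum_congr rfl fun x hx => by rw [mul_pow, Real.sq_sqrt (hD x hx)]
  rw [h3, h4] at h2
  exact (pow_le_pow_left₀ (norm_nonneg _) h1 2).trans h2

theorem pf_TTB : T_TTB := by
  intro lam m n k q A b α hlam hT hq
  have hqQ := hq
  unfold QQ at hqQ
  rw [mem_filter, mem_Ioc] at hqQ
  have hq1 : 1 ≤ q := hqQ.2.one_lt.le
  have hqm : q ≤ 2 ^ m := hqQ.1.2.trans (Nat.pow_le_pow_right (by norm_num) (Nat.div_le_self _ _))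
  have hq0 : (0 : ℝ) < q := by exact_mod_cast hq1
  set F := fs k (b q) (α q) with hF
  set N : ℕ := 2 ^ m with hN
  have hN0 : (0 : ℝ) < N := by rw [hN]; positivity
  have hNr : (N : ℝ) = 2 ^ m := by rw [hN]; push_cast; rfl
  have hsq := hT.sq q hq
  have hsm := hT.sm q hq
  rw [← hF, ← hN, ← hNr] at hsq hsm
  have hmain := cs_maj (Ioc n (n + N))
    (fun x => (lam x : ℂ) * (D q x : ℂ) * starRingEnd ℂ (F x))
    (fun x => (if q ∣ x then (q : ℝ) else 0) + 1) (fun x => ‖F x‖)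
    (fun x _ => by split_ifs <;> positivity) (fun x _ => by
      rw [norm_mul, norm_mul, RCLike.norm_conj, Complex.norm_real, Complex.norm_real,
        Real.norm_eq_abs, Real.norm_eq_abs]
      have h2 : |D q x| ≤ (if q ∣ x then (q : ℝ) else 0) + 1 := by
        unfold D
        refine (abs_sub _ _).trans ?_
        rw [abs_one]
        have : |(if q ∣ x then (q : ℝ) else 0)| = if q ∣ x then (q : ℝ) else 0 := by
          apply abs_of_nonneg
          split_ifs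
          · exact hq0.le
          · exact le_refl _
        rw [this]
      apply mul_le_mul_of_nonneg_right _ (norm_nonneg _)
      calc |lam x| * |D q x| ≤ 1 * |D q x| :=
            mul_le_mul_of_nonneg_right (hlam x) (abs_nonneg _)
        _ = |D q x| := one_mul _
        _ ≤ _ := h2)
  have hD : ∑ x ∈ Ioc n (n + N), ((if q ∣ x then (q : ℝ) else 0) + 1) ≤ 3 * (N : ℝ) := by
    rw [sum_add_distrib, ← sum_filter, sum_const, sum_const, nsmul_eq_mul, nsmul_eq_mul,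
      Nat.card_Ioc]
    have h3 := Pool.Agent.H46.BES.GEN.card_mul q n N hq1
    have h4 : (((Ioc n (n + N)).filter fun x => q ∣ x).card : ℝ) * q ≤ ((N : ℝ) / q + 1) * q :=
      mul_le_mul_of_nonneg_right h3 hq0.le
    have h5 : ((N : ℝ) / q + 1) * q = N + q := by field_simp
    have h6 : (q : ℝ) ≤ N := by exact_mod_cast hqm
    have h7 : ((n + N - n : ℕ) : ℝ) = N := by
      congr 1
      omega
    rw [h7]
    linarith
  have hDF : ∑ x ∈ Ioc n (n + N), ((if q ∣ x then (q : ℝ) else 0) + 1) * ‖F x‖ ^ 2 ≤ 3 * (N : ℝ) := by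
    have h3 : ∀ x ∈ Ioc n (n + N), ((if q ∣ x then (q : ℝ) else 0) + 1) * ‖F x‖ ^ (2 : ℕ) =
        (if q ∣ x then (q : ℝ) * ‖F x‖ ^ 2 else 0) + ‖F x‖ ^ 2 := by
      intro x _
      split_ifs <;> ring
    rw [sum_congr rfl h3, sum_add_distrib, ← sum_filter, ← mul_sum]
    linarith
  have hDF0 : 0 ≤ ∑ x ∈ Ioc n (n + N), ((if q ∣ x then (q : ℝ) else 0) + 1) * ‖F x‖ ^ 2 :=
    sum_nonneg fun x _ => by split_ifs <;> positivity
  unfold tt
  rw [norm_div, Complex.norm_natCast, div_pow, div_le_iff₀ (by positivity)]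
  refine hmain.trans ?_
  calc (∑ x ∈ Ioc n (n + N), ((if q ∣ x then (q : ℝ) else 0) + 1)) *
        ∑ x ∈ Ioc n (n + N), ((if q ∣ x then (q : ℝ) else 0) + 1) * ‖F x‖ ^ 2
      ≤ (3 * (N : ℝ)) * (3 * N) := mul_le_mul hD hDF hDF0 (by positivity)
    _ = 9 * (N : ℝ) ^ 2 := by ring

/-- the trivial bound for one window -/
theorem Pt_bd (W : ℝ) (lam : ℕ → ℝ) (hlam : ∀ n, |lam n| ≤ 1) (m n k : ℕ) (A : ℝ)
    (b : ℕ → ℕ → ℂ) (α : ℕ → ℕ → ℝ) (hW : ∑ q ∈ QQ m, 1 / (q : ℝ) ≤ W) (hT : TC m n k A b α) :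
    0 ≤ Pt lam m n k b α ∧ Pt lam m n k b α ≤ 9 * W := by
  unfold Pt
  constructor
  · exact sum_nonneg fun q _ => by positivity
  · calc ∑ q ∈ QQ m, 1 / (q : ℝ) * tt lam q (2 ^ m) n (fs k (b q) (α q)) ^ 2
        ≤ ∑ q ∈ QQ m, 1 / (q : ℝ) * 9 := by
          refine sum_le_sum fun q hq => mul_le_mul_of_nonneg_left ?_ (by positivity)
          exact pf_TTB lam m n k q A b α hlam hT hq
      _ = 9 * ∑ q ∈ QQ m, 1 / (q : ℝ) := by rw [← sum_mul, mul_comm]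
      _ ≤ 9 * W := by linarith

end Pool.Agent.H3.BT
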