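import Pool.Agent.H3.BT.OTargets
import Pool.Agent.H3.BT.TTB

/-!
# The Bessel inequality for tuples: sliding windows from one interval
-/

set_option autoImplicit false

open Finset Pool.Agent.H6.N4D Pool.Agent.H93.EB Pool.Agent.H3.BES Pool.Agent.H46.BES.GEN

namespace Pool.Agent.H3.BT

theorem pf_BTS (h1 : T_ONT) (h2 : T_MSU) : T_BTS := by
  classical
  obtain ⟨W, hW⟩ := h2
  have hW0 : 0 ≤ W := (Finset.sum_nonneg fun q _ => by positivity).trans (hW 0)
  obtain ⟨C₀, C₁, hC₀, hC₁, hone⟩ := h1 W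
  refine ⟨4800, 54 * W + 14 + 6 * C₀, by norm_num, by positivity, ?_⟩
  intro R k
  obtain ⟨t₀, ht₀⟩ := pow_unbounded_of_one_lt (2 * (C₁ * (1 + k) ^ 4) * (1 + R)) (one_lt_two)
  refine ⟨4800 * (t₀ + 1), ?_⟩
  intro s X K k₁ lam e m cc α hs₀ hX hlam hbase hK hm0 hmi hk₁ hTC
  have hX' : (3 : ℝ) ≤ X := by exact_mod_cast hX
  have hlog1 : 1 ≤ Real.log X := by
    rw [Real.le_log_iff_exp_le (by linarith)]
    have := Real.exp_one_lt_d9
    linarith
  have hlog0 : 0 ≤ Real.log X := by linarith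
  obtain ⟨b, β, hb, hbase⟩ := hbase
  -- the truncated coefficients
  have hbase' : lg X (fun n => err lam R s b β n) ≤ e * Real.log X := by
    have h3 : (fun n => err lam R s b β n) = (fun n => (∑ m ∈ Ioc n (n + 2 ^ s),
      ‖(lam m : ℂ) - ∑ r ∈ range R, b n r * ee (β n r * m)‖ ^ 2) / ((2 ^ s : ℕ) : ℝ)) := by
      funext n
      unfold err
      push_cast
      rfl
    rw [h3]
    exact hbase
  have he0 : 0 ≤ e * Real.log X :=
    (lg_nonneg fun n _ => err_nonneg lam R s b β n).trans hbase'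
  rcases Nat.eq_zero_or_pos K with hK0 | hK0
  · subst hK0
    rw [Finset.range_zero, Finset.sum_empty]
    have h3 : (0 : ℝ) ≤ (1 / 2) ^ (s / 4800) * Real.log X := by positivity
    have h4 : 0 ≤ (54 * W + 14 + 6 * C₀) * (e * Real.log X) := by positivity
    have h5 : ((54 * W + 14 + 6 * C₀) * e + (1 / 2) ^ (s / 4800)) * Real.log X +
        (54 * W + 14 + 6 * C₀) * ((0 : ℕ) : ℝ) * ((k₁ : ℝ) + 1) =
        (54 * W + 14 + 6 * C₀) * (e * Real.log X) + (1 / 2) ^ (s / 4800) * Real.log X := by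
      push_cast
      ring
    rw [h5]
    linarith
  have hK1 : (1 : ℝ) ≤ K := by exact_mod_cast hK0
  set b' : ℕ → ℕ → ℂ := fun n r => if err lam R s b β n ≤ 1 then b n r else 0 with hb'
  have hb1 : ∀ n r, ‖b' n r‖ ≤ 1 := by
    intro n r
    rw [hb']
    dsimp only
    split_ifs
    · exact hb n r
    · rw [norm_zero]
      exact zero_le_one
  have herr : ∀ n, err lam R s b' β n ≤ 1 ∧ err lam R s b' β n ≤ err lam R s b β n := by
    intro n
    by_cases h3 : err lam R s b β n ≤ 1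
    · have h4 : err lam R s b' β n = err lam R s b β n := by
        unfold err
        have : ∀ r, b' n r = b n r := fun r => if_pos h3
        simp only [this]
      rw [h4]
      exact ⟨h3, le_refl _⟩
    · have h4 : err lam R s b' β n ≤ 1 :=
        err_zero lam hlam R s b' β n fun r => if_neg h3
      exact ⟨h4, h4.trans (not_le.mp h3).le⟩
  have herr_abs : ∀ n, |err lam R s b' β n| ≤ 1 := by
    intro n
    rw [abs_of_nonneg (err_nonneg lam R s b' β n)]
    exact (herr n).1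
  -- monotonicity of the levels
  have hmono : ∀ i, i < K → m i ≤ m (K - 1) := by
    have h3 : ∀ d i, i + d < K → m i ≤ m (i + d) := by
      intro d
      induction d with
      | zero => intro i _; exact le_refl _
      | succ d ih =>
        intro i hi
        have h4 := ih i (by omega)
        have h5 := hmi (i + d) (by omega)
        have h6 : i + (d + 1) = i + d + 1 := rfl
        rw [h6]
        omega
    intro i hi
    have h4 := h3 (K - 1 - i) i (by omega)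
    have h5 : i + (K - 1 - i) = K - 1 := by omega
    rwa [h5] at h4
  set L : ℕ := 2 * (m (K - 1) / 2) + 1 with hL
  have hmL : ∀ i, i < K → m i ≤ L := by
    intro i hi
    have := hmono i hi
    omega
  have hsL : s ≤ L := by
    have := hmono 0 hK0
    omega
  have hLk : L ≤ k₁ + 1 := by
    have := hk₁ (K - 1) (by omega)
    omega
  have hhs : hs (2 ^ L) ≤ k₁ + 2 := by
    have h3 := hs_two L
    have h4 : (L : ℝ) ≤ k₁ + 1 := by exact_mod_cast hLk
    linarith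
  have hhs0 : 0 ≤ hs (2 ^ L) := hs_nonneg _
  -- the functions of the levels
  set h : ℕ → ℕ → ℝ := fun i n => Pt lam (m i) n k (cc i n) (α i n) with hh
  have hh_abs : ∀ i ∈ range K, ∀ n, |h i n| ≤ 9 * W := by
    intro i hi n
    have h3 := Pt_bd W lam hlam (m i) n k _ (cc i n) (α i n) (hW (m i))
      (hTC i (Finset.mem_range.mp hi) n)
    rw [hh]
    dsimp only
    rw [abs_of_nonneg h3.1]
    exact h3.2
  set A : ℝ := 2 ^ (s / 4800) with hA
  have hA1 : 1 ≤ A := one_le_pow₀ (by norm_num)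
  set E : ℝ := C₁ * (1 + k * A) ^ 4 * ((K : ℝ) ^ 2 + K * R) *
    ((2 : ℝ) ^ (s / 2)) ^ (-(1 / 5) : ℝ) with hE
  have hineq : ∀ u : ℕ, ∑ i ∈ range K, (2 : ℝ) ^ m i / 2 ^ L *
      ∑ k ∈ range (2 ^ L / 2 ^ m i), h i (u + k * 2 ^ m i) ≤
      C₀ * ((2 : ℝ) ^ s / 2 ^ L *
      ∑ k ∈ range (2 ^ L / 2 ^ s), err lam R s b' β (u + k * 2 ^ s)) + E := fun u =>
    hone K s R k u m A cc α lam b' β hK0 (by omega) hA1 hlam hW hm0 hmi hTC hb1
  have hlg := lg_mono (X := X) fun u _ => hineq u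
  rw [lg_sum, lg_add, lg_const] at hlg
  have hleft : ∑ i ∈ range K, (lg X (h i) - 3 * (9 * W) * hs (2 ^ L)) ≤
      ∑ i ∈ range K, lg X (fun u => (2 : ℝ) ^ m i / 2 ^ L *
      ∑ k ∈ range (2 ^ L / 2 ^ m i), h i (u + k * 2 ^ m i)) := by
    refine Finset.sum_le_sum fun i hi => ?_
    rw [lg_mul, lg_sum]
    have h3 := avg_shift X (m i) L (hmL i (Finset.mem_range.mp hi)) (h i) (hh_abs i hi)
    have h4 := (abs_le.mp h3).1
    linarith
  have hright : lg X (fun u => C₀ * ((2 : ℝ) ^ s / 2 ^ L *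
      ∑ k ∈ range (2 ^ L / 2 ^ s), err lam R s b' β (u + k * 2 ^ s))) ≤
      C₀ * (e * Real.log X + 3 * hs (2 ^ L)) := by
    rw [lg_mul, lg_mul, lg_sum]
    apply mul_le_mul_of_nonneg_left _ hC₀
    have h3 := avg_shift X s L hsL (fun n => err lam R s b' β n) herr_abs
    have h4 := (abs_le.mp h3).2
    have h5 : lg X (fun n => err lam R s b' β n) ≤ lg X (fun n => err lam R s b β n) :=
      lg_mono fun n _ => (herr n).2
    linarith
  have hEnd : E * lg X (fun _ => 1) ≤ (1 / 2) ^ (s / 4800) * Real.log X := by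
    have h3 := lg_one_le X
    set t : ℕ := s / 4800 with ht
    have ht1 : t₀ + 1 ≤ t := by omega
    have hrp := rp t s (by omega)
    have hKt : (K : ℝ) ≤ 2 ^ t := by exact_mod_cast hK
    have h2t : (1 : ℝ) ≤ 2 ^ t := one_le_pow₀ (by norm_num)
    have hk0' : (0 : ℝ) ≤ k := Nat.cast_nonneg _
    have hAk : (1 + k * A) ^ 4 ≤ (1 + k) ^ 4 * (2 ^ t) ^ 4 := by
      rw [← mul_pow]
      apply pow_le_pow_left₀ (by positivity)
      nlinarith
    have hR0 : (0 : ℝ) ≤ R := Nat.cast_nonneg _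
    have hKK : (K : ℝ) ^ 2 + K * R ≤ (1 + R) * (2 ^ t) ^ 2 := by
      have h4 : (K : ℝ) ^ 2 ≤ (2 ^ t) ^ 2 := pow_le_pow_left₀ (by positivity) hKt 2
      have h5 : (K : ℝ) * R ≤ (2 ^ t) ^ 2 * R := by
        refine mul_le_mul_of_nonneg_right (hKt.trans ?_) hR0
        nlinarith
      linarith
    have hE0 : 0 ≤ E := by
      rw [hE]
      positivity
    set C₂ : ℝ := C₁ * (1 + k) ^ 4 with hC₂d
    have hC₂ : 0 ≤ C₂ := by rw [hC₂d]; positivity
    have hE1 : E ≤ (1 / 2) ^ t / 2 := by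
      have h4 : E ≤ C₂ * (2 ^ t) ^ 4 * ((1 + R) * (2 ^ t) ^ 2) * (1 / 2) ^ (240 * t) := by
        rw [hE]
        refine mul_le_mul ?_ hrp (by positivity) (by positivity)
        refine mul_le_mul ?_ hKK (by positivity) (by positivity)
        rw [hC₂d, mul_assoc]
        exact mul_le_mul_of_nonneg_left hAk hC₁
      have h5 : ((1 : ℝ) / 2) ^ (240 * t) = (1 / 2) ^ t * ((1 / 2) ^ t) ^ 2 * (1 / 2) ^ t *
          ((1 / 2) ^ t) ^ 4 * (1 / 2) ^ (232 * t) := by
        rw [← pow_mul, ← pow_mul, ← pow_add, ← pow_add, ← pow_add, ← pow_add]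
        congr 1
        ring
      have h6' : (2 : ℝ) ^ t * (1 / 2) ^ t = 1 := by
        rw [← mul_pow]
        norm_num
      have h6 : ((2 : ℝ) ^ t) ^ 2 * ((1 / 2) ^ t) ^ 2 = 1 := by
        rw [← mul_pow, h6', one_pow]
      have h6b : ((2 : ℝ) ^ t) ^ 4 * ((1 / 2) ^ t) ^ 4 = 1 := by
        rw [← mul_pow, h6', one_pow]
      have h7 : ((1 : ℝ) / 2) ^ (232 * t) ≤ 1 :=
        pow_le_one₀ (by norm_num) (by norm_num)
      have h8 : 2 * C₂ * (1 + R) * (1 / 2) ^ t ≤ 1 := by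
        have h9 : (2 : ℝ) ^ t₀ ≤ 2 ^ t := pow_le_pow_right₀ (by norm_num) (by omega)
        have h10 : 2 * C₂ * (1 + R) ≤ 2 ^ t := ht₀.le.trans h9
        have h11 : (2 : ℝ) ^ t * (1 / 2) ^ t = 1 := by
          rw [← mul_pow]
          norm_num
        calc 2 * C₂ * (1 + R) * (1 / 2) ^ t ≤ 2 ^ t * (1 / 2) ^ t :=
              mul_le_mul_of_nonneg_right h10 (by positivity)
          _ = 1 := h11
      have h9 : C₂ * (2 ^ t) ^ 4 * ((1 + R) * (2 ^ t) ^ 2) * (1 / 2) ^ (240 * t) =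
          ((1 / 2) ^ t / 2) * ((2 * C₂ * (1 + R) * (1 / 2) ^ t) * (1 / 2) ^ (232 * t)) := by
        rw [h5]
        calc C₂ * (2 ^ t) ^ 4 * ((1 + R) * (2 ^ t) ^ 2) * ((1 / 2) ^ t * ((1 / 2) ^ t) ^ 2 *
              (1 / 2) ^ t * ((1 / 2) ^ t) ^ 4 * (1 / 2) ^ (232 * t))
            = C₂ * (1 + R) * ((1 / 2) ^ t * (1 / 2) ^ t) * (1 / 2) ^ (232 * t) *
              (((2 : ℝ) ^ t) ^ 2 * ((1 / 2) ^ t) ^ 2) *
              (((2 : ℝ) ^ t) ^ 4 * ((1 / 2) ^ t) ^ 4) := by ring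
          _ = _ := by rw [h6, h6b]; ring
      rw [h9] at h4
      refine h4.trans ?_
      have h10 : (2 * C₂ * (1 + R) * (1 / 2) ^ t) * (1 / 2) ^ (232 * t) ≤ 1 :=
        mul_le_one₀ h8 (by positivity) h7
      calc ((1 : ℝ) / 2) ^ t / 2 * ((2 * C₂ * (1 + R) * (1 / 2) ^ t) * (1 / 2) ^ (232 * t))
          ≤ (1 / 2) ^ t / 2 * 1 := mul_le_mul_of_nonneg_left h10 (by positivity)
        _ = (1 / 2) ^ t / 2 := mul_one _
    calc E * lg X (fun _ => 1) ≤ (1 / 2) ^ t / 2 * (2 * Real.log X) := by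
          refine mul_le_mul hE1 (by linarith) (lg_nonneg fun _ _ => zero_le_one) (by positivity)
      _ = (1 / 2) ^ t * Real.log X := by ring
  have hsum : ∑ i ∈ range K, (lg X (h i) - 3 * (9 * W) * hs (2 ^ L)) =
      ∑ i ∈ range K, lg X (h i) - K * (3 * (9 * W) * hs (2 ^ L)) := by
    rw [Finset.sum_sub_distrib, Finset.sum_const, Finset.card_range, nsmul_eq_mul]
  rw [hsum] at hleft
  have hk0 : (0 : ℝ) ≤ k₁ := Nat.cast_nonneg _
  have hf1 : K * (3 * (9 * W) * hs (2 ^ L)) ≤ 54 * W * (K * (k₁ + 1)) := by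
    have h3 : hs (2 ^ L) ≤ 2 * (k₁ + 1) := by linarith
    calc K * (3 * (9 * W) * hs (2 ^ L)) ≤ K * (3 * (9 * W) * (2 * (k₁ + 1))) := by
          refine mul_le_mul_of_nonneg_left ?_ (by positivity)
          exact mul_le_mul_of_nonneg_left h3 (by positivity)
      _ = 54 * W * (K * (k₁ + 1)) := by ring
  have hf2 : C₀ * (3 * hs (2 ^ L)) ≤ C₀ * (6 * (K * (k₁ + 1))) := by
    apply mul_le_mul_of_nonneg_left _ hC₀
    have h3 : (k₁ : ℝ) + 1 ≤ K * (k₁ + 1) := by nlinarith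
    linarith
  have hf3 : 0 ≤ W * (e * Real.log X) := by positivity
  have hf4 : (0 : ℝ) ≤ K * (k₁ + 1) := by positivity
  have hf5 : 0 ≤ C₀ * (e * Real.log X) := by positivity
  have hgoal : ∑ i ∈ range K, lg X (h i) ≤
      54 * W * (K * (k₁ + 1)) + C₀ * (e * Real.log X) + C₀ * (6 * (K * (k₁ + 1))) +
        (1 / 2) ^ (s / 4800) * Real.log X := by linarith
  have hfin : ((54 * W + 14 + 6 * C₀) * e + (1 / 2) ^ (s / 4800)) * Real.log X +
      (54 * W + 14 + 6 * C₀) * K * (k₁ + 1) =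
      54 * (W * (e * Real.log X)) + 14 * (e * Real.log X) + 6 * (C₀ * (e * Real.log X)) +
        54 * W * (K * (k₁ + 1)) + 14 * (K * (k₁ + 1)) + C₀ * (6 * (K * (k₁ + 1))) +
        (1 / 2) ^ (s / 4800) * Real.log X := by ring
  rw [hfin]
  linarith

end Pool.Agent.H3.BT
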