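import Pool.Agent.H3.BT.OntB
import Pool.Agent.H3.BES.ONE

/-!
# The Bessel inequality for tuples: one interval
-/

set_option autoImplicit false

open Finset Pool.Agent.H6.N4D Pool.Agent.H93.EB Pool.Agent.H3.BES

namespace Pool.Agent.H3.BT

lemma tt_sq_le (lam : ℕ → ℝ) (q ρ N n : ℕ) (F : ℕ → ℂ) :
    tt lam q (ρ * N) n F ^ 2 ≤ 1 / (ρ : ℝ) * ∑ j ∈ range ρ,
      ‖(∑ x ∈ range N, (lam (n + 1 + j * N + x) : ℂ) * (D q (n + 1 + j * N + x) : ℂ) *
        starRingEnd ℂ (F (n + 1 + j * N + x))) / (N : ℂ)‖ ^ 2 := by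
  unfold tt
  have h1 : ∑ x ∈ Ioc n (n + ρ * N), (lam x : ℂ) * (D q x : ℂ) * starRingEnd ℂ (F x) =
      ∑ j ∈ range ρ, ∑ x ∈ range N, (lam (n + 1 + j * N + x) : ℂ) *
        (D q (n + 1 + j * N + x) : ℂ) * starRingEnd ℂ (F (n + 1 + j * N + x)) := by
    rw [sum_Ioc_range, mul_comm ρ N, sum_range_mul']
    refine sum_congr rfl fun j _ => sum_congr rfl fun x _ => ?_
    have : n + 1 + (N * j + x) = n + 1 + j * N + x := by ring
    rw [this]
  rw [h1]
  exact norm_sq_mean ρ N _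

section

variable {K s u k : ℕ} {m : ℕ → ℕ} {b : ℕ → ℕ → ℕ → ℕ → ℂ} {α : ℕ → ℕ → ℕ → ℕ → ℝ} {A : ℝ}

lemma ST_Z (lam : ℕ → ℝ) (i j q : ℕ) :
    2 * (ST K s u k m b α).Z (fun n => (lam n : ℂ)) i j q ^ 2 =
      ‖(∑ x ∈ range ((2 ^ ex s m i) ^ 2),
        (lam (u + 1 + j * (2 ^ ex s m i) ^ 2 + x) : ℂ) *
        (D q (u + 1 + j * (2 ^ ex s m i) ^ 2 + x) : ℂ) *
        starRingEnd ℂ (fs k (b (i - 1) (par m u i j) q) (α (i - 1) (par m u i j) q)
          (u + 1 + j * (2 ^ ex s m i) ^ 2 + x))) /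
        (((2 ^ ex s m i) ^ 2 : ℕ) : ℂ)‖ ^ 2 := by
  have h1 : (ST K s u k m b α).Z (fun n => (lam n : ℂ)) i j q =
      ‖(∑ x ∈ range ((2 ^ ex s m i) ^ 2),
        (lam (u + 1 + j * (2 ^ ex s m i) ^ 2 + x) : ℂ) *
        (D q (u + 1 + j * (2 ^ ex s m i) ^ 2 + x) : ℂ) *
        starRingEnd ℂ (fs k (b (i - 1) (par m u i j) q) (α (i - 1) (par m u i j) q)
          (u + 1 + j * (2 ^ ex s m i) ^ 2 + x))) /
        (((2 ^ ex s m i) ^ 2 : ℕ) : ℂ) / (Real.sqrt 2 : ℂ)‖ := by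
    unfold Pool.Agent.H21.BT.TS.Z Pool.Agent.H21.BS.av
    congr 1
    show (∑ x ∈ range ((2 ^ ex s m i) ^ 2), (lam (u + 1 + j * (2 ^ ex s m i) ^ 2 + x) : ℂ) *
      starRingEnd ℂ (((ST K s u k m b α).V i j).u q (u + 1 + j * (2 ^ ex s m i) ^ 2 + x))) /
        (((2 ^ ex s m i) ^ 2 : ℕ) : ℂ) = _
    rw [div_right_comm]
    congr 1
    rw [sum_div]
    refine sum_congr rfl fun x _ => ?_
    unfold Pool.Agent.H21.BT.TC.u
    rw [ST_F, map_mul, map_div₀, Complex.conj_ofReal]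
    have h2 : starRingEnd ℂ (Pool.Agent.H21.BS.DD q (u + 1 + j * (2 ^ ex s m i) ^ 2 + x)) =
        (D q (u + 1 + j * (2 ^ ex s m i) ^ 2 + x) : ℂ) := by
      unfold Pool.Agent.H21.BS.DD D
      split_ifs <;> simp
    rw [h2]
    ring
  rw [h1, norm_div, div_pow, sq2]
  ring

lemma ST_L (hK : 1 ≤ K) : (ST K s u k m b α).L = 2 ^ (2 * (m (K - 1) / 2) + 1) := by
  unfold Pool.Agent.H21.BT.TS.L
  simp only [ST]
  have h1 : ex s m K = m (K - 1) / 2 := by
    unfold ex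
    rw [if_neg (by omega)]
  rw [h1, ← pow_mul, ← pow_succ']
  congr 1
  ring

/-- the tests of one true window -/
lemma Pt_le (lam : ℕ → ℝ) (j k' : ℕ) :
    Pt lam (m j) (u + k' * 2 ^ m j) k (b j (u + k' * 2 ^ m j)) (α j (u + k' * 2 ^ m j)) ≤
      1 / ((2 ^ (m j % 2) : ℕ) : ℝ) * ∑ i ∈ range (2 ^ (m j % 2)),
        ∑ q ∈ QQ (m j), 1 / (q : ℝ) *
          (2 * (ST K s u k m b α).Z (fun n => (lam n : ℂ)) (j + 1) (2 ^ (m j % 2) * k' + i) q ^ 2)
          := by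
  unfold Pt
  rw [sum_comm, mul_sum]
  refine sum_le_sum fun q _ => ?_
  rw [← mul_sum]
  have hq : (0 : ℝ) ≤ 1 / q := by positivity
  rw [mul_left_comm]
  apply mul_le_mul_of_nonneg_left _ hq
  have hex : ex s m (j + 1) = m j / 2 := by
    unfold ex
    rw [if_neg (by omega)]
    congr 1
  have h1 := tt_sq_le lam q (2 ^ (m j % 2)) ((2 ^ (m j / 2)) ^ 2) (u + k' * 2 ^ m j)
    (fs k (b j (u + k' * 2 ^ m j) q) (α j (u + k' * 2 ^ m j) q))
  rw [← two_pow_half] at h1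
  refine h1.trans (le_of_eq ?_)
  congr 1
  refine sum_congr rfl fun i hi => ?_
  rw [mem_range] at hi
  rw [ST_Z, hex]
  have h2 : par m u (j + 1) (2 ^ (m j % 2) * k' + i) = u + k' * 2 ^ m j := by
    unfold par
    have h3 : j + 1 - 1 = j := by omega
    rw [h3]
    have h4 : (2 ^ (m j % 2) * k' + i) / 2 ^ (m j % 2) = k' := by
      rw [Nat.mul_add_div (by positivity), Nat.div_eq_of_lt hi, add_zero]
    rw [h4]
  have h5 : u + 1 + (2 ^ (m j % 2) * k' + i) * (2 ^ (m j / 2)) ^ 2 =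
      u + k' * 2 ^ m j + 1 + i * (2 ^ (m j / 2)) ^ 2 := by
    conv_rhs => rw [two_pow_half (m j)]
    ring
  have h3 : j + 1 - 1 = j := by omega
  rw [h2, h5, h3]

/-- the energy of one level -/
lemma level_le (lam : ℕ → ℝ) {j : ℕ} (hdvd : 2 ^ m j ∣ (ST K s u k m b α).L)
    (hLpos : 0 < (ST K s u k m b α).L) :
    (2 : ℝ) ^ m j / ((ST K s u k m b α).L : ℝ) *
      ∑ k' ∈ range ((ST K s u k m b α).L / 2 ^ m j),
        Pt lam (m j) (u + k' * 2 ^ m j) k (b j (u + k' * 2 ^ m j)) (α j (u + k' * 2 ^ m j)) ≤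
      2 * (ST K s u k m b α).e (fun n => (lam n : ℂ)) (j + 1) := by
  unfold Pool.Agent.H21.BT.TS.e
  set S := ST K s u k m b α with hS
  have hex : ex s m (j + 1) = m j / 2 := by
    unfold ex
    rw [if_neg (by omega)]
    congr 1
  have hN : S.N (j + 1) = (2 ^ (m j / 2)) ^ 2 := by
    show (2 ^ ex s m (j + 1)) ^ 2 = _
    rw [hex]
  have hQ : S.Q (j + 1) = QQ (m j) := rfl
  set ρ := 2 ^ (m j % 2) with hρ
  set N := (2 ^ (m j / 2)) ^ 2 with hNd
  have hρpos : 0 < ρ := by positivity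
  have hNpos : 0 < N := by positivity
  have hM : 2 ^ m j = ρ * N := two_pow_half (m j)
  have hcnt : S.cnt (j + 1) = ρ * (S.L / 2 ^ m j) := by
    unfold Pool.Agent.H21.BT.TS.cnt
    rw [hN]
    obtain ⟨c, hc⟩ := hdvd
    rw [hc, Nat.mul_div_cancel_left _ (by positivity), hM]
    have : ρ * N * c = N * (ρ * c) := by ring
    rw [this, Nat.mul_div_cancel_left _ hNpos]
  have hMr : (2 : ℝ) ^ m j = (ρ : ℝ) * N := by
    have := congrArg (Nat.cast : ℕ → ℝ) hM
    push_cast at this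
    exact_mod_cast this
  have hLr : (0 : ℝ) < S.L := by exact_mod_cast hLpos
  have hρr : (0 : ℝ) < ρ := by exact_mod_cast hρpos
  rw [hcnt, hN, hQ, sum_range_mul', hMr]
  calc (ρ : ℝ) * N / S.L * ∑ k' ∈ range (S.L / 2 ^ m j),
        Pt lam (m j) (u + k' * 2 ^ m j) k (b j (u + k' * 2 ^ m j)) (α j (u + k' * 2 ^ m j))
      ≤ (ρ : ℝ) * N / S.L * ∑ k' ∈ range (S.L / 2 ^ m j), (1 / (ρ : ℝ) * ∑ i ∈ range ρ,
        ∑ q ∈ QQ (m j), 1 / (q : ℝ) *
          (2 * S.Z (fun n => (lam n : ℂ)) (j + 1) (ρ * k' + i) q ^ 2)) := by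
        apply mul_le_mul_of_nonneg_left _ (by positivity)
        refine sum_le_sum fun k' _ => ?_
        have := Pt_le (K := K) (s := s) (u := u) (k := k) (m := m) (b := b) (α := α) lam j k'
        exact this
    _ = (N : ℝ) / S.L * ∑ k' ∈ range (S.L / 2 ^ m j), ∑ i ∈ range ρ,
        ∑ q ∈ QQ (m j), 1 / (q : ℝ) *
          (2 * S.Z (fun n => (lam n : ℂ)) (j + 1) (ρ * k' + i) q ^ 2) := by
        rw [← mul_sum, ← mul_assoc]
        congr 1
        field_simp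
    _ = 2 * ((N : ℝ) / S.L * ∑ k' ∈ range (S.L / 2 ^ m j), ∑ i ∈ range ρ,
        ∑ q ∈ QQ (m j), 1 / (q : ℝ) *
          S.Z (fun n => (lam n : ℂ)) (j + 1) (ρ * k' + i) q ^ 2) := by
        have h9 : ∑ k' ∈ range (S.L / 2 ^ m j), ∑ i ∈ range ρ,
            ∑ q ∈ QQ (m j), 1 / (q : ℝ) *
              (2 * S.Z (fun n => (lam n : ℂ)) (j + 1) (ρ * k' + i) q ^ 2) =
            2 * ∑ k' ∈ range (S.L / 2 ^ m j), ∑ i ∈ range ρ,
            ∑ q ∈ QQ (m j), 1 / (q : ℝ) *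
              S.Z (fun n => (lam n : ℂ)) (j + 1) (ρ * k' + i) q ^ 2 := by
          rw [mul_sum]
          refine sum_congr rfl fun k' _ => ?_
          rw [mul_sum]
          refine sum_congr rfl fun i _ => ?_
          rw [mul_sum]
          refine sum_congr rfl fun q _ => ?_
          ring
        rw [h9]
        ring

lemma ST_exps (R : ℕ) (bb : ℕ → ℕ → ℂ) (β : ℕ → ℕ → ℝ) (hb : ∀ n r, ‖bb n r‖ ≤ 1) :
    (ST K s u k m b α).Exps R (FF u s R bb β) := by
  intro k' _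
  refine ⟨fun r => bb (u + k' / 2 ^ (s % 2) * 2 ^ s) r,
    fun r => β (u + k' / 2 ^ (s % 2) * 2 ^ s) r, fun r => hb _ _, ?_⟩
  intro x hx
  have hex : ex s m 0 = s / 2 := by simp [ex]
  have hN0 : ((ST K s u k m b α).fam fun _ => 0).N 0 = (2 ^ (s / 2)) ^ 2 := by
    show (2 ^ ex s m 0) ^ 2 = _
    rw [hex]
  rw [hN0] at hx ⊢
  have hU : ((ST K s u k m b α).fam fun _ => 0).U = u + 1 := rfl
  rw [hU]
  unfold FF
  have h1 : (u + 1 + k' * (2 ^ (s / 2)) ^ 2 + x - (u + 1)) / 2 ^ s = k' / 2 ^ (s % 2) := by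
    have h2 : u + 1 + k' * (2 ^ (s / 2)) ^ 2 + x - (u + 1) = (2 ^ (s / 2)) ^ 2 * k' + x := by
      rw [mul_comm k']
      omega
    rw [h2, two_pow_half s, mul_comm (2 ^ (s % 2)) ((2 ^ (s / 2)) ^ 2),
      ← Nat.div_div_eq_div_mul, Nat.mul_add_div (by positivity), Nat.div_eq_of_lt hx, add_zero]
  rw [h1, Finset.sum_range]

lemma ST_avr (lam : ℕ → ℝ) (R : ℕ) (bb : ℕ → ℕ → ℂ) (β : ℕ → ℕ → ℝ)
    (hdvd : 2 ^ s ∣ (ST K s u k m b α).L) :
    Pool.Agent.H21.BS.avr (ST K s u k m b α).U (ST K s u k m b α).L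
      (fun n => ‖(lam n : ℂ) - FF u s R bb β n‖ ^ 2) =
    (2 : ℝ) ^ s / ((ST K s u k m b α).L : ℝ) *
      ∑ j ∈ range ((ST K s u k m b α).L / 2 ^ s), err lam R s bb β (u + j * 2 ^ s) := by
  unfold Pool.Agent.H21.BS.avr
  set L := (ST K s u k m b α).L with hL
  have hU : (ST K s u k m b α).U = u + 1 := rfl
  rw [hU]
  obtain ⟨c, hc⟩ := hdvd
  have hdiv : L / 2 ^ s = c := by rw [hc, Nat.mul_div_cancel_left _ (by positivity)]
  rw [hdiv]
  have h1 : ∑ x ∈ range L, ‖(lam (u + 1 + x) : ℂ) - FF u s R bb β (u + 1 + x)‖ ^ 2 =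
      ∑ j ∈ range c, (2 : ℝ) ^ s * err lam R s bb β (u + j * 2 ^ s) := by
    rw [hc, sum_range_mul']
    refine sum_congr rfl fun j _ => ?_
    unfold err
    rw [mul_div_cancel₀ _ (by positivity), sum_Ioc_range]
    refine sum_congr rfl fun x hx => ?_
    rw [mem_range] at hx
    have h2 : u + 1 + (2 ^ s * j + x) = u + j * 2 ^ s + 1 + x := by ring
    rw [h2]
    unfold FF
    have h3 : (u + j * 2 ^ s + 1 + x - (u + 1)) / 2 ^ s = j := by
      have h4 : u + j * 2 ^ s + 1 + x - (u + 1) = 2 ^ s * j + x := by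
        rw [mul_comm j]
        omega
      rw [h4, Nat.mul_add_div (by positivity), Nat.div_eq_of_lt hx, add_zero]
    rw [h3]
  rw [h1, ← mul_sum]
  ring

end

theorem pf_ONT (h : Pool.Agent.H21.BT.T_BT) : T_ONT := by
  intro W
  by_cases hW0 : 0 ≤ W
  · obtain ⟨C, hC, hB⟩ := h W hW0
    refine ⟨2 * (3 + 6 * W), 2 * C, by positivity, by positivity, ?_⟩
    intro K s R k u m A b α lam bb β hK hs hA hlam hW hm0 hm hT hbb
    rcases Nat.eq_zero_or_pos k with hk | hk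
    · -- no exponentials
      subst hk
      have hPt : ∀ (i n : ℕ), Pt lam (m i) n 0 (b i n) (α i n) = 0 := by
        intro i n
        unfold Pt tt fs
        simp
      have herr : ∀ n, 0 ≤ err lam R s bb β n := fun n => by unfold err; positivity
      have h1 : ∑ i ∈ range K, (2 : ℝ) ^ m i / 2 ^ (2 * (m (K - 1) / 2) + 1) *
          ∑ j ∈ range (2 ^ (2 * (m (K - 1) / 2) + 1) / 2 ^ m i),
            Pt lam (m i) (u + j * 2 ^ m i) 0 (b i (u + j * 2 ^ m i)) (α i (u + j * 2 ^ m i)) = 0 := by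
        simp [hPt]
      rw [h1]
      have h2 : 0 ≤ ∑ j ∈ range (2 ^ (2 * (m (K - 1) / 2) + 1) / 2 ^ s),
        err lam R s bb β (u + j * 2 ^ s) := sum_nonneg fun j _ => herr _
      positivity
    · set S := ST K s u k m b α with hS
      have hSL : S.L = 2 ^ (2 * (m (K - 1) / 2) + 1) := ST_L hK
      have hmi : ∀ i, i + 1 < K → 2400 * m i ≤ m (i + 1) := fun i hi =>
        (Nat.mul_le_mul_right _ (by norm_num)).trans (hm i hi)
      have hok : S.Ok W A := ST_ok hK hk hA hW hm0 hm hT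
      have hLpos : 0 < S.L := by rw [hSL]; positivity
      have hmono := mono_of_step hmi
      have hdj : ∀ j < K, 2 ^ m j ∣ S.L := by
        intro j hj
        rw [hSL]
        apply pow_dvd_pow
        have := hmono (K - 1) j (by omega) (by omega)
        omega
      have hds : 2 ^ s ∣ S.L := by
        rw [hSL]
        apply pow_dvd_pow
        have := hmono (K - 1) 0 (by omega) (by omega)
        omega
      have hmain := hB S A R (fun n => (lam n : ℂ)) (FF u s R bb β) hok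
        (fun n => by simpa using hlam n) (ST_exps R bb β hbb)
      rw [ST_avr lam R bb β hds] at hmain
      have hE : ∑ i ∈ range K, (2 : ℝ) ^ m i / 2 ^ (2 * (m (K - 1) / 2) + 1) *
          ∑ j ∈ range (2 ^ (2 * (m (K - 1) / 2) + 1) / 2 ^ m i),
            Pt lam (m i) (u + j * 2 ^ m i) k (b i (u + j * 2 ^ m i)) (α i (u + j * 2 ^ m i)) ≤
          2 * S.E (fun n => (lam n : ℂ)) := by
        unfold Pool.Agent.H21.BT.TS.E
        have hSK : S.K = K := rfl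
        rw [hSK, sum_Icc_range, mul_sum]
        refine sum_le_sum fun j hj => ?_
        rw [mem_range] at hj
        have h1 := level_le (K := K) (s := s) (u := u) (k := k) (m := m) (b := b) (α := α) lam
          (hdj j hj) hLpos
        rw [← hS] at h1
        rw [hSL] at h1
        push_cast at h1
        exact h1
      have hs0 : ((S.s 0 : ℕ) : ℝ) = (2 : ℝ) ^ (s / 2) := by
        rw [hS]
        simp [ST, ex]
      have hSK : (S.K : ℝ) = K := rfl
      have hSk : (S.k : ℝ) = k := rfl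
      rw [hs0, hSK, hSk, ← hS, hSL] at hmain
      push_cast at hmain
      have hkA : (k : ℝ) ^ 4 * A ^ 2 ≤ (1 + k * A) ^ 4 := by
        have hk0 : (1 : ℝ) ≤ k := by exact_mod_cast hk
        calc (k : ℝ) ^ 4 * A ^ 2 ≤ (k : ℝ) ^ 4 * A ^ 4 :=
              mul_le_mul_of_nonneg_left (pow_le_pow_right₀ hA (by norm_num)) (by positivity)
          _ = (k * A) ^ 4 := by ring
          _ ≤ (1 + k * A) ^ 4 := pow_le_pow_left₀ (by positivity) (by linarith) 4
      have hlast : C * ((k : ℝ) ^ 4 * A ^ 2) * ((K : ℝ) ^ 2 + K * R) *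
          ((2 : ℝ) ^ (s / 2)) ^ (-(1 / 5) : ℝ) ≤
          C * (1 + k * A) ^ 4 * ((K : ℝ) ^ 2 + K * R) * ((2 : ℝ) ^ (s / 2)) ^ (-(1 / 5) : ℝ) := by
        apply mul_le_mul_of_nonneg_right _ (by positivity)
        apply mul_le_mul_of_nonneg_right _ (by positivity)
        exact mul_le_mul_of_nonneg_left hkA hC
      linarith
  · -- no primes: the sums are nonnegative
    refine ⟨0, 0, le_rfl, le_rfl, ?_⟩
    intro K s R k u m A b α lam bb β hK hs hA hlam hW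
    exact absurd ((sum_nonneg fun q _ => by positivity).trans (hW 0)) hW0

end Pool.Agent.H3.BT
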