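import Pool.Agent.H3.BT.Targets
import Pool.Agent.H3.BES.Fin
import Pool.Agent.H1.BES.FIN

/-!
# The Bessel inequality for tuples: good lifts
-/

set_option autoImplicit false

open Finset Pool.Agent.H6.N4D Pool.Agent.H93.EB

namespace Pool.Agent.H3.BT

/-- bad quadruples after small shifts -/
lemma bad_shift {N : ℕ} {κ κ' η : ℝ} {α α' : ℕ → ℝ} {q : Fin 4 → ℕ}
    (hd : ∀ j, nd (α (q j) - α' (q j)) ≤ η) (hk : 1 / (κ' * N) + 4 * η ≤ 1 / (κ * N))
    (h : Pool.Agent.H21.BS.Bad N κ' α' q) : Pool.Agent.H21.BS.Bad N κ α q := by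
  obtain ⟨b, hb, hn⟩ := h
  refine ⟨b, hb, ?_⟩
  have e : α (q 0) - α (q 1) - α (q 2) + α (q 3) - ∑ j, (b j : ℝ) / q j =
      (α' (q 0) - α' (q 1) - α' (q 2) + α' (q 3) - ∑ j, (b j : ℝ) / q j) +
      ((α (q 0) - α' (q 0)) - (α (q 1) - α' (q 1)) - (α (q 2) - α' (q 2)) +
        (α (q 3) - α' (q 3))) := by ring
  rw [e]
  refine (nd_add_le _ _).trans ?_
  have h1 : nd ((α (q 0) - α' (q 0)) - (α (q 1) - α' (q 1)) - (α (q 2) - α' (q 2)) +
        (α (q 3) - α' (q 3))) ≤ 4 * η := by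
    refine (nd_add_le _ _).trans ?_
    have h2 := nd_sub_le ((α (q 0) - α' (q 0)) - (α (q 1) - α' (q 1))) (α (q 2) - α' (q 2))
    have h3 := nd_sub_le (α (q 0) - α' (q 0)) (α (q 1) - α' (q 1))
    have := hd 0
    have := hd 1
    have := hd 2
    have := hd 3
    linarith
  linarith

/-- the mass of the bad quadruples after small shifts -/
lemma badmass_shift {N : ℕ} {κ κ' η : ℝ} {Q : Finset ℕ} {α α' : ℕ → ℝ}
    (hd : ∀ q ∈ Q, nd (α q - α' q) ≤ η) (hk : 1 / (κ' * N) + 4 * η ≤ 1 / (κ * N)) :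
    Pool.Agent.H21.BS.badmass N κ' Q α' ≤ Pool.Agent.H21.BS.badmass N κ Q α := by
  classical
  unfold Pool.Agent.H21.BS.badmass
  apply sum_le_sum_of_subset_of_nonneg
  · intro q hq
    rw [mem_filter] at hq ⊢
    refine ⟨hq.1, hq.2.1, bad_shift (fun j => hd _ ?_) hk hq.2.2⟩
    exact Fintype.mem_piFinset.mp hq.1 j
  · intro q _ _
    exact prod_nonneg fun j _ => by positivity

theorem pf_NCX : T_NCX := by
  obtain ⟨W, hW⟩ := Pool.Agent.H3.BES.msu_of Pool.Agent.H20.ENM.pf_QMS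
  obtain ⟨C, hC, hclu⟩ := Pool.Agent.H3.BES.clu W 1 one_pos
  obtain ⟨s₂, hs₂⟩ := pow_unbounded_of_one_lt C (show (1 : ℝ) < 2 by norm_num)
  refine ⟨max (2400 * s₂) (4800 * 3), ?_⟩
  intro m hm β
  have hm1 : 2400 * s₂ ≤ m := (le_max_left _ _).trans hm
  have hm2 : 4800 * 3 ≤ m := (le_max_right _ _).trans hm
  obtain ⟨α, ha, hb⟩ := hclu (4 ^ (m / 2)) (2 ^ (m / 400)) (Pool.Agent.H3.BES.kp m) (QQ m) β
    (fun q hq => Pool.Agent.H1.BES.QQ_prime _ _ hq) (fun q hq => Pool.Agent.H1.BES.QQ_lo _ _ hq)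
    (fun q hq => Pool.Agent.H1.BES.QQ_pow _ _ hq) (hW _) (Pool.Agent.H1.BES.kp_pos _)
    (Pool.Agent.H1.BES.kp_le_one _) (Pool.Agent.H1.BES.kp_sq _)
    (hs₂.le.trans (Pool.Agent.H1.BES.kp_five m s₂ hm1))
  have hex : ∀ q : ℕ, ∃ z : ℤ, q ∈ QQ m → nd (α q - β q - (z : ℝ) / q) ≤
      1 / ((4 ^ (m / 2) : ℕ) : ℝ) := by
    intro q
    by_cases hq : q ∈ QQ m
    · obtain ⟨z, hz⟩ := ha q hq
      exact ⟨z, fun _ => hz⟩
    · exact ⟨0, fun h => absurd h hq⟩
  choose z hz using hex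
  refine ⟨z, ?_⟩
  intro δ hδ
  unfold NCt
  set N : ℕ := 4 ^ (m / 2) with hN
  have hN0 : (0 : ℝ) < N := by rw [hN]; positivity
  have hNle : (N : ℝ) ≤ 2 ^ m := by
    have : (N : ℝ) = (2 : ℝ) ^ (2 * (m / 2)) := by
      rw [hN]; push_cast; rw [pow_mul]; norm_num
    rw [this]
    exact pow_le_pow_right₀ (by norm_num) (by omega)
  set T : ℝ := 2 ^ (m / 4800) with hT
  have hT0 : 0 < T := by rw [hT]; positivity
  have hT8 : 8 ≤ T := by
    have h1 : (2 : ℝ) ^ 3 ≤ 2 ^ (m / 4800) := pow_le_pow_right₀ (by norm_num) (by omega)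
    rw [hT]
    linarith [show (2 : ℝ) ^ 3 = 8 by norm_num]
  have h1 : Pool.Agent.H21.BS.badmass N (kq m) (QQ m) (fun q => β q + (z q : ℝ) / q + δ q) ≤
      Pool.Agent.H21.BS.badmass N (Pool.Agent.H3.BES.kp m) (QQ m) α := by
    apply badmass_shift (η := (1 + T) / N)
    · intro q hq
      have e : α q - (β q + (z q : ℝ) / q + δ q) = (α q - β q - (z q : ℝ) / q) - δ q := by ring
      rw [e]
      refine (nd_sub_le _ _).trans ?_
      have h2 := hz q hq
      have h3 := (nd_le_abs (δ q)).trans (hδ q hq)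
      have h4 : T / 2 ^ m ≤ T / N := by
        apply div_le_div_of_nonneg_left hT0.le hN0 hNle
      rw [add_div]
      linarith
    · have hkq : kq m = 1 / T := by
        unfold kq
        rw [one_div_pow, hT]
      have hkp : Pool.Agent.H3.BES.kp m ≤ 1 / T ^ 2 := by
        unfold Pool.Agent.H3.BES.kp
        rw [one_div_pow, hT, ← pow_mul]
        apply one_div_le_one_div_of_le (by positivity)
        exact pow_le_pow_right₀ (by norm_num) (by omega)
      have hkp0 := Pool.Agent.H1.BES.kp_pos m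
      rw [hkq]
      have h5 : T ^ 2 / N ≤ 1 / (Pool.Agent.H3.BES.kp m * N) := by
        rw [div_le_div_iff₀ hN0 (by positivity)]
        have h6 : Pool.Agent.H3.BES.kp m * T ^ 2 ≤ 1 := by
          calc Pool.Agent.H3.BES.kp m * T ^ 2 ≤ 1 / T ^ 2 * T ^ 2 :=
                mul_le_mul_of_nonneg_right hkp (by positivity)
            _ = 1 := by field_simp
        have h8 : T ^ 2 * (Pool.Agent.H3.BES.kp m * (N : ℝ)) =
            (Pool.Agent.H3.BES.kp m * T ^ 2) * (N : ℝ) := by ring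
        rw [h8]
        exact mul_le_mul_of_nonneg_right h6 hN0.le
      refine le_trans ?_ h5
      have h7 : 1 / (1 / T * (N : ℝ)) = T / N := by field_simp
      rw [h7, ← mul_div_assoc, ← add_div]
      apply div_le_div_of_nonneg_right _ hN0.le
      nlinarith
  refine h1.trans (hb.trans ?_)
  unfold Pool.Agent.H3.BES.kp kq
  exact pow_le_pow_of_le_one (by norm_num) (by norm_num) (by omega)

end Pool.Agent.H3.BT
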