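import Pool.Agent.H3.BT.Fin
import Pool.Agent.H21.BT.All

/-!
# The Bessel inequality for tuples
-/

set_option autoImplicit false

namespace Pool.Agent.H3.BT

theorem bts : T_BTS := bts_of Pool.Agent.H21.BT.aBT

end Pool.Agent.H3.BT
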