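import Pool.Agent.H3.BES.SWT

/-!
# The Bessel inequality for tuples (MP_c59857_nt, theorem (H)): sliding windows, definitions

The test of the window `(n, n + 2 ^ m]` with the prime `q` is the correlation of `lam D_q` with a
sum of `k` exponentials; the coefficients and the frequencies may depend on the window and on `q`.
-/

set_option autoImplicit false

open Finset Pool.Agent.H6.N4D Pool.Agent.H93.EB

namespace Pool.Agent.H3.BT

/-- the sum of `k` exponentials with the coefficients `b` and the frequencies `α` -/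
noncomputable def fs (k : ℕ) (b : ℕ → ℂ) (α : ℕ → ℝ) (x : ℕ) : ℂ :=
  ∑ r ∈ range k, b r * ee (α r * x)

/-- the test of the window `(n, n + N]` with the prime `q` and the function `F` -/
noncomputable def tt (lam : ℕ → ℝ) (q N n : ℕ) (F : ℕ → ℂ) : ℝ :=
  ‖(∑ x ∈ Ioc n (n + N), (lam x : ℂ) * (D q x : ℂ) * starRingEnd ℂ (F x)) / N‖

/-- the threshold of level `m` for the quadruples -/
noncomputable def kq (m : ℕ) : ℝ := (1 / 2 : ℝ) ^ (m / 4800)

/-- the condition on the frequencies of one family -/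
def NCt (m : ℕ) (α : ℕ → ℝ) : Prop :=
  Pool.Agent.H21.BS.badmass (4 ^ (m / 2)) (kq m) (QQ m) α ≤ kq m

/-- the conditions on the tuples `q ↦ (b q, α q)` of the window `(n, n + 2 ^ m]`: the coefficients
have norm at most `A`, the mean square on the window is at most one, on the multiples of `q` at most
two, and every family has few bad quadruples -/
structure TC (m n k : ℕ) (A : ℝ) (b : ℕ → ℕ → ℂ) (α : ℕ → ℕ → ℝ) : Prop where
  cb : ∀ q ∈ QQ m, ∀ r < k, ‖b q r‖ ≤ A
  sq : ∀ q ∈ QQ m, ∑ x ∈ Ioc n (n + 2 ^ m), ‖fs k (b q) (α q) x‖ ^ 2 ≤ 2 ^ m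
  sm : ∀ q ∈ QQ m, q * ∑ x ∈ (Ioc n (n + 2 ^ m)).filter (fun x => q ∣ x),
    ‖fs k (b q) (α q) x‖ ^ 2 ≤ 2 * 2 ^ m
  nc : ∀ r < k, NCt m (fun q => α q r)

/-- the energy of the tests of one window -/
noncomputable def Pt (lam : ℕ → ℝ) (m n k : ℕ) (b : ℕ → ℕ → ℂ) (α : ℕ → ℕ → ℝ) : ℝ :=
  ∑ q ∈ QQ m, 1 / (q : ℝ) * tt lam q (2 ^ m) n (fs k (b q) (α q)) ^ 2

end Pool.Agent.H3.BT
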