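import Pool.Agent.H3.BT.GET
import Pool.Agent.H3.BT.OntC
import Pool.Agent.H3.BES.Fin

/-!
# The Bessel inequality for tuples: sliding windows from tiles
-/

set_option autoImplicit false

namespace Pool.Agent.H3.BT

theorem bts_of (h : Pool.Agent.H21.BT.T_BT) : T_BTS :=
  pf_BTS (pf_ONT h) (Pool.Agent.H3.BES.msu_of Pool.Agent.H20.ENM.pf_QMS)

end Pool.Agent.H3.BT
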