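import Pool.Agent.H3.BT.Targets

/-!
# The Bessel inequality for tuples: one interval, statement
-/

set_option autoImplicit false

open Finset Pool.Agent.H6.N4D Pool.Agent.H93.EB

namespace Pool.Agent.H3.BT

/-- ONT: the inequality for tuples on one interval (u, u + L], L = 2 ^ (2 (m (K - 1) / 2) + 1). -/
def T_ONT : Prop := ∀ W : ℝ, ∃ C₁ C : ℝ, 0 ≤ C₁ ∧ 0 ≤ C ∧ ∀ (K s R k u : ℕ) (m : ℕ → ℕ) (A : ℝ)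
  (b : ℕ → ℕ → ℕ → ℕ → ℂ) (α : ℕ → ℕ → ℕ → ℕ → ℝ) (lam : ℕ → ℝ) (bb : ℕ → ℕ → ℂ)
  (β : ℕ → ℕ → ℝ),
  1 ≤ K → 1 ≤ s → 1 ≤ A → (∀ n, |lam n| ≤ 1) → (∀ j, ∑ q ∈ QQ j, 1 / (q : ℝ) ≤ W) →
  4800 * s ≤ m 0 → (∀ i, i + 1 < K → 4800 * m i ≤ m (i + 1)) →
  (∀ i < K, ∀ n, TC (m i) n k A (b i n) (α i n)) → (∀ n r, ‖bb n r‖ ≤ 1) →
  ∑ i ∈ range K, (2 : ℝ) ^ m i / 2 ^ (2 * (m (K - 1) / 2) + 1) *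
      ∑ j ∈ range (2 ^ (2 * (m (K - 1) / 2) + 1) / 2 ^ m i),
        Pt lam (m i) (u + j * 2 ^ m i) k (b i (u + j * 2 ^ m i)) (α i (u + j * 2 ^ m i)) ≤
    C₁ * ((2 : ℝ) ^ s / 2 ^ (2 * (m (K - 1) / 2) + 1) *
      ∑ j ∈ range (2 ^ (2 * (m (K - 1) / 2) + 1) / 2 ^ s),
        Pool.Agent.H3.BES.err lam R s bb β (u + j * 2 ^ s)) +
    C * (1 + k * A) ^ 4 * ((K : ℝ) ^ 2 + K * R) * ((2 : ℝ) ^ (s / 2)) ^ (-(1 / 5) : ℝ)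

end Pool.Agent.H3.BT
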