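import Pool.Agent.H3.BT.OTargets
import Pool.Agent.H3.BES.OneC
import Pool.Agent.H21.BT.Targets

/-!
# The Bessel inequality for tuples: one interval, the system of windows
-/

set_option autoImplicit false

open Finset Pool.Agent.H6.N4D Pool.Agent.H93.EB Pool.Agent.H3.BES

namespace Pool.Agent.H3.BT

/-- the system of windows -/
noncomputable def ST (K s u k : ℕ) (m : ℕ → ℕ) (b : ℕ → ℕ → ℕ → ℕ → ℂ)
    (α : ℕ → ℕ → ℕ → ℕ → ℝ) : Pool.Agent.H21.BT.TS where
  K := K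
  T := 2
  U := u + 1
  s := fun i => 2 ^ ex s m i
  Q := fun i => QQ (m (i - 1))
  κ := fun i => kq (m (i - 1))
  P := fun i => 2 ^ (m (i - 1) / 400)
  k := k
  α := fun i j r q => α (i - 1) (par m u i j) q r
  b := fun i j r q => b (i - 1) (par m u i j) q r / (Real.sqrt 2 : ℂ)

lemma kq_pos (m : ℕ) : 0 < kq m := by unfold kq; positivity

lemma kq_le_one (m : ℕ) : kq m ≤ 1 := by
  unfold kq
  exact pow_le_one₀ (by norm_num) (by norm_num)

lemma BVone (v : ℝ) (hv : 0 ≤ v) (a N : ℕ) : Pool.Agent.H21.BS.BV v a N (fun _ => 1) := by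
  constructor
  · intro n; simp
  · simpa using hv

lemma NCt_card {m : ℕ} {α : ℕ → ℝ} (h : NCt m α) :
    Pool.Agent.H21.BS.badmass ((2 ^ (m / 2)) ^ 2) (kq m) (QQ m) α ≤ kq m := by
  unfold NCt at h
  have h4 : (4 : ℕ) ^ (m / 2) = (2 ^ (m / 2)) ^ 2 := by
    rw [← pow_mul, mul_comm (m / 2) 2, pow_mul]
    norm_num
  rwa [h4] at h

section

variable {K s u k : ℕ} {m : ℕ → ℕ} {b : ℕ → ℕ → ℕ → ℕ → ℂ} {α : ℕ → ℕ → ℕ → ℕ → ℝ} {A : ℝ}

lemma exs (i : ℕ) (hi : 1 ≤ i) : ex s m i = m (i - 1) / 2 := by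
  unfold ex
  rw [if_neg (by omega)]

/-- the tile `j` of level `i` lies in the window which begins at `par` -/
lemma tile_mem {i j x : ℕ} (hi : 1 ≤ i) (hx : x < (2 ^ ex s m i) ^ 2) :
    u + 1 + j * (2 ^ ex s m i) ^ 2 + x ∈ Ioc (par m u i j) (par m u i j + 2 ^ m (i - 1)) := by
  rw [exs i hi] at hx ⊢
  rw [mem_Ioc]
  unfold par
  have h1 := two_pow_half (m (i - 1))
  have hρ : 0 < 2 ^ (m (i - 1) % 2) := by positivity
  set ρ := 2 ^ (m (i - 1) % 2)
  set N := (2 ^ (m (i - 1) / 2)) ^ 2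
  rw [h1]
  have h2 : j / ρ * ρ ≤ j := Nat.div_mul_le_self j ρ
  have h3 : j / ρ * (ρ * N) = j / ρ * ρ * N := by ring
  have h4 : j / ρ * ρ * N ≤ j * N := Nat.mul_le_mul_right N h2
  have h5 : j + 1 ≤ j / ρ * ρ + ρ := by
    have := Nat.lt_div_mul_add hρ (a := j)
    omega
  have h6 : (j + 1) * N ≤ (j / ρ * ρ + ρ) * N := Nat.mul_le_mul_right N h5
  have h7 : (j + 1) * N = j * N + N := by ring
  have h8 : (j / ρ * ρ + ρ) * N = j / ρ * (ρ * N) + ρ * N := by ring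
  constructor
  · omega
  · omega

/-- a sum over a tile is at most the sum over the window -/
lemma tile_le {i j : ℕ} (hi : 1 ≤ i) (f : ℕ → ℝ) (hf : ∀ x, 0 ≤ f x) :
    ∑ x ∈ range ((2 ^ ex s m i) ^ 2), f (u + 1 + j * (2 ^ ex s m i) ^ 2 + x) ≤
      ∑ x ∈ Ioc (par m u i j) (par m u i j + 2 ^ m (i - 1)), f x := by
  have h1 : ∑ x ∈ range ((2 ^ ex s m i) ^ 2), f (u + 1 + j * (2 ^ ex s m i) ^ 2 + x) =
      ∑ y ∈ (range ((2 ^ ex s m i) ^ 2)).image (fun x => u + 1 + j * (2 ^ ex s m i) ^ 2 + x),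
        f y := by
    rw [sum_image]
    intro x _ y _ hxy
    simpa using hxy
  rw [h1]
  apply sum_le_sum_of_subset_of_nonneg
  · intro y hy
    rw [mem_image] at hy
    obtain ⟨x, hx, rfl⟩ := hy
    rw [mem_range] at hx
    exact tile_mem hi hx
  · intro y _ _
    exact hf y

lemma ST_F (i j q n : ℕ) : ((ST K s u k m b α).V i j).F q n =
    fs k (b (i - 1) (par m u i j) q) (α (i - 1) (par m u i j) q) n / (Real.sqrt 2 : ℂ) := by
  unfold Pool.Agent.H21.BT.TC.F fs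
  rw [sum_div]
  refine sum_congr rfl fun r _ => ?_
  show b (i - 1) (par m u i j) q r / (Real.sqrt 2 : ℂ) * ee (α (i - 1) (par m u i j) q r * n) = _
  ring

lemma sq2 : ‖(Real.sqrt 2 : ℂ)‖ ^ 2 = 2 := by
  rw [Complex.norm_real, Real.norm_eq_abs, sq_abs, Real.sq_sqrt (by norm_num)]

lemma ST_F_sq (i j q n : ℕ) : ‖((ST K s u k m b α).V i j).F q n‖ ^ 2 =
    ‖fs k (b (i - 1) (par m u i j) q) (α (i - 1) (par m u i j) q) n‖ ^ 2 / 2 := by
  rw [ST_F, norm_div, div_pow, sq2]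

lemma ST_fam_ok {W : ℝ} (hK : 1 ≤ K) (hW : ∀ j, ∑ q ∈ QQ j, 1 / (q : ℝ) ≤ W)
    (hm0 : 4800 * s ≤ m 0) (hm : ∀ i, i + 1 < K → 4800 * m i ≤ m (i + 1))
    (hT : ∀ i < K, ∀ n, TC (m i) n k A (b i n) (α i n)) (r : ℕ → ℕ) (hr : ∀ i, r i < k) :
    ((ST K s u k m b α).fam r).Ok W := by
  refine ⟨by simp [ST, Pool.Agent.H21.BT.TS.fam], ?_, ?_, ?_, ?_, ?_⟩
  · intro i _
    simp only [ST, Pool.Agent.H21.BT.TS.fam]
    exact Nat.one_le_two_pow
  · intro i hi
    simp only [ST, Pool.Agent.H21.BT.TS.fam] at hi ⊢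
    apply pow_dvd_pow
    have h4 : i + 1 - 1 = i := by omega
    have h5 : ex s m (i + 1) = m i / 2 := by
      unfold ex
      rw [if_neg (by omega), h4]
    rw [h5]
    unfold ex
    split_ifs with h1
    · subst h1
      omega
    · have := hm (i - 1) (by omega)
      have h3 : i - 1 + 1 = i := by omega
      rw [h3] at this
      omega
  · intro i hi1 hiK j hj
    simp only [ST, Pool.Agent.H21.BT.TS.fam] at hiK
    have hi' : i - 1 < K := by omega
    have hex : ex s m i = m (i - 1) / 2 := by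
      unfold ex
      rw [if_neg (by omega)]
    refine ⟨?_, ?_, ?_, ?_, ?_, ?_, ?_, ?_, ?_, ?_, ?_⟩
    · intro q hq
      exact (mem_QQ.mp hq).2
    · intro q hq
      exact (mem_QQ.mp hq).1.1.le
    · intro q hq
      have := QQ_200 hq
      show q ^ 200 ≤ (2 ^ ex s m i) ^ 2
      rw [hex]
      exact this
    · exact hW _
    · exact Nat.one_le_two_pow
    · exact kq_pos _
    · exact kq_le_one _
    · show 1 ≤ kq (m (i - 1)) ^ 2 * (((2 ^ ex s m i) ^ 2 : ℕ) : ℝ)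
      rw [hex]
      have h1 : (1 : ℝ) ≤ kq (m (i - 1)) * 2 ^ (m (i - 1) / 2) := by
        unfold kq
        rw [one_div, inv_pow, inv_mul_eq_div, le_div_iff₀ (by positivity), one_mul]
        exact pow_le_pow_right₀ (by norm_num) (by omega)
      push_cast
      calc (1 : ℝ) = 1 ^ 2 := by norm_num
        _ ≤ (kq (m (i - 1)) * 2 ^ (m (i - 1) / 2)) ^ 2 := pow_le_pow_left₀ (by norm_num) h1 2
        _ = kq (m (i - 1)) ^ 2 * (2 ^ (m (i - 1) / 2)) ^ 2 := by rw [mul_pow]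
    · intro q _
      exact BVone 10 (by norm_num) _ _
    · have h5 := NCt_card ((hT (i - 1) hi' (par m u i j)).nc (r i) (hr i))
      show Pool.Agent.H21.BS.badmass ((2 ^ ex s m i) ^ 2) (kq (m (i - 1))) (QQ (m (i - 1)))
        (fun q => α (i - 1) (par m u i j) q (r i)) ≤ kq (m (i - 1))
      rw [hex]
      exact h5
    · intro q _
      show ‖(0 : ℕ → ℂ) q‖ ≤ 3
      simp
  · intro i hi
    simp only [ST, Pool.Agent.H21.BT.TS.fam] at hi ⊢
    have h1 : i + 1 - 1 = i := by omega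
    rw [h1]
    have h2 : ex s m i ≤ m i / 4800 := by
      unfold ex
      split_ifs with h3
      · subst h3
        omega
      · have := hm (i - 1) (by omega)
        have h4 : i - 1 + 1 = i := by omega
        rw [h4] at this
        omega
    unfold kq
    push_cast
    rw [one_div, inv_pow, inv_mul_eq_div, div_le_one (by positivity)]
    exact pow_le_pow_right₀ (by norm_num) h2
  · intro i hi
    simp only [ST, Pool.Agent.H21.BT.TS.fam] at hi ⊢
    have h1 : i + 1 - 1 = i := by omega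
    rw [h1]
    apply Nat.pow_le_pow_right (by norm_num)
    unfold ex
    split_ifs with h3
    · subst h3
      omega
    · have := hm (i - 1) (by omega)
      have h4 : i - 1 + 1 = i := by omega
      rw [h4] at this
      omega

lemma ST_ok {W : ℝ} (hK : 1 ≤ K) (hk : 1 ≤ k) (hA : 1 ≤ A)
    (hW : ∀ j, ∑ q ∈ QQ j, 1 / (q : ℝ) ≤ W)
    (hm0 : 4800 * s ≤ m 0) (hm : ∀ i, i + 1 < K → 4800 * m i ≤ m (i + 1))
    (hT : ∀ i < K, ∀ n, TC (m i) n k A (b i n) (α i n)) :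
    (ST K s u k m b α).Ok W A := by
  refine ⟨hk, fun r hr => ST_fam_ok hK hW hm0 hm hT r hr, ?_⟩
  intro i hi1 hiK j _
  have hiK' : i ≤ K := hiK
  have hi' : i - 1 < K := by omega
  have hex : ex s m i = m (i - 1) / 2 := by
    unfold ex
    rw [if_neg (by omega)]
  have hTi := hT (i - 1) hi' (par m u i j)
  have hN2 : (2 : ℝ) ^ m (i - 1) ≤ 2 * (((2 ^ ex s m i) ^ 2 : ℕ) : ℝ) := by
    rw [hex]
    have h1 := two_pow_half (m (i - 1))
    have h2 : (2 : ℝ) ^ m (i - 1) = (2 : ℝ) ^ (m (i - 1) % 2) *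
        (((2 ^ (m (i - 1) / 2)) ^ 2 : ℕ) : ℝ) := by
      have := congrArg (Nat.cast : ℕ → ℝ) h1
      push_cast at this ⊢
      exact this
    rw [h2]
    apply mul_le_mul_of_nonneg_right _ (Nat.cast_nonneg _)
    calc (2 : ℝ) ^ (m (i - 1) % 2) ≤ 2 ^ 1 :=
          pow_le_pow_right₀ (by norm_num) (by omega)
      _ = 2 := by norm_num
  refine ⟨?_, ?_, ?_, ?_, ?_, ?_, ?_, ?_, ?_, ?_⟩
  · intro q hq
    exact (mem_QQ.mp hq).2
  · intro q hq
    exact (mem_QQ.mp hq).1.1.le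
  · intro q hq
    have := QQ_200 hq
    show q ^ 200 ≤ (2 ^ ex s m i) ^ 2
    rw [hex]
    exact this
  · exact hW _
  · exact Nat.one_le_two_pow
  · show 1 ≤ (2 ^ ex s m i) ^ 2
    exact Nat.one_le_pow _ _ (by positivity)
  · exact hA
  · intro r hr q hq
    show ‖b (i - 1) (par m u i j) q r / (Real.sqrt 2 : ℂ)‖ ≤ A
    rw [norm_div, Complex.norm_real, Real.norm_eq_abs, abs_of_nonneg (Real.sqrt_nonneg _)]
    have h1 := hTi.cb q hq r hr
    have h2 : (1 : ℝ) ≤ Real.sqrt 2 := by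
      rw [show (1 : ℝ) = Real.sqrt 1 by simp]
      exact Real.sqrt_le_sqrt (by norm_num)
    calc ‖b (i - 1) (par m u i j) q r‖ / Real.sqrt 2 ≤ ‖b (i - 1) (par m u i j) q r‖ :=
          div_le_self (norm_nonneg _) h2
      _ ≤ A := h1
  · intro q hq
    show ∑ x ∈ range ((2 ^ ex s m i) ^ 2), ‖((ST K s u k m b α).V i j).F q
      (u + 1 + j * (2 ^ ex s m i) ^ 2 + x)‖ ^ 2 ≤ (((2 ^ ex s m i) ^ 2 : ℕ) : ℝ)
    simp only [ST_F_sq]
    rw [← sum_div]
    have h1 := tile_le (s := s) (m := m) (u := u) (j := j) hi1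
      (fun x => ‖fs k (b (i - 1) (par m u i j) q) (α (i - 1) (par m u i j) q) x‖ ^ 2)
      (fun x => by positivity)
    have h2 := hTi.sq q hq
    rw [div_le_iff₀ (by norm_num)]
    linarith
  · intro q hq
    show ∑ x ∈ range ((2 ^ ex s m i) ^ 2),
      (if q ∣ u + 1 + j * (2 ^ ex s m i) ^ 2 + x then (q : ℝ) else 0) *
        ‖((ST K s u k m b α).V i j).F q (u + 1 + j * (2 ^ ex s m i) ^ 2 + x)‖ ^ 2 ≤
        2 * (((2 ^ ex s m i) ^ 2 : ℕ) : ℝ)
    simp only [ST_F_sq]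
    have h1 := tile_le (s := s) (m := m) (u := u) (j := j) hi1
      (fun x => (if q ∣ x then (q : ℝ) else 0) *
        (‖fs k (b (i - 1) (par m u i j) q) (α (i - 1) (par m u i j) q) x‖ ^ 2 / 2))
      (fun x => by split_ifs <;> positivity)
    refine h1.trans ?_
    have h2 := hTi.sm q hq
    have h3 : ∑ x ∈ Ioc (par m u i j) (par m u i j + 2 ^ m (i - 1)),
        (if q ∣ x then (q : ℝ) else 0) *
        (‖fs k (b (i - 1) (par m u i j) q) (α (i - 1) (par m u i j) q) x‖ ^ 2 / 2) =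
        (q * ∑ x ∈ (Ioc (par m u i j) (par m u i j + 2 ^ m (i - 1))).filter (fun x => q ∣ x),
          ‖fs k (b (i - 1) (par m u i j) q) (α (i - 1) (par m u i j) q) x‖ ^ 2) / 2 := by
      rw [sum_filter, mul_sum, sum_div]
      refine sum_congr rfl fun x _ => ?_
      split_ifs <;> ring
    rw [h3]
    linarith

end

end Pool.Agent.H3.BT
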